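import Pool.Agent.H95.NV.Targets2

/-!
# BRK: the two notations for lattices
-/

set_option autoImplicit false
set_option linter.unusedSectionVars false

namespace Pool.Agent.H94.NV

open NumberField
open Pool.Agent.H65.CM4 (Pl rv nm dk dg V2 Fo)
open Pool.Agent.H89.NV (CK Lam tp)
open Pool.Agent.H95.NV

section One

variable {k K : Type} [Field k] [NumberField k] [IsTotallyReal k] [Field K] [NumberField K]
    [Algebra k K] {D : 𝓞 k}

theorem amk (t : k) : algebraMap k K t = t • (1 : K) := Algebra.algebraMap_eq_smul_one t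

theorem re_am (h : CK D K) (t : k) : h.re (algebraMap k K t) = t := by
  rw [amk, map_smul, h.re1, smul_eq_mul, mul_one]

theorem im_am (h : CK D K) (t : k) : h.im (algebraMap k K t) = 0 := by
  rw [amk, map_smul, h.im1, smul_zero]

theorem re_ams (h : CK D K) (t : k) : h.re (algebraMap k K t * h.s) = 0 := by
  rw [← Algebra.smul_def, map_smul, h.res, smul_zero]

theorem im_ams (h : CK D K) (t : k) : h.im (algebraMap k K t * h.s) = t := by
  rw [← Algebra.smul_def, map_smul, h.ims, smul_eq_mul, mul_one]

theorem quad (h : CK D K) : Algebra.IsQuadraticExtension k K := by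
  have e : Function.Bijective (h.re.prod h.im) := by
    constructor
    · intro x y hxy
      have h1 : h.re x = h.re y := congrArg Prod.fst hxy
      have h2 : h.im x = h.im y := congrArg Prod.snd hxy
      rw [h.eq x, h.eq y, h1, h2]
    · rintro ⟨p, q⟩
      refine ⟨algebraMap k K p + algebraMap k K q * h.s, ?_⟩
      show (h.re _, h.im _) = (p, q)
      rw [map_add, map_add, re_am, im_am, re_ams, im_ams, add_zero, zero_add]
  have e1 := (LinearEquiv.ofBijective (h.re.prod h.im) e).finrank_eq
  refine { finrank_eq_two' := ?_ }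
  rw [e1, Module.finrank_prod, Module.finrank_self]

theorem im_zero (h : CK D K) (x : K) : h.im x = 0 ↔ ∃ t : k, x = algebraMap k K t := by
  constructor
  · intro hx
    refine ⟨h.re x, ?_⟩
    conv_lhs => rw [h.eq x, hx, map_zero, zero_mul, add_zero]
  · rintro ⟨t, rfl⟩
    exact im_am h t

theorem lat (h : CK D K) (f A : Ideal (𝓞 k)) (b : 𝓞 k) (z : K) :
    z ∈ Lam h f A b ↔ z ∈ Lt f A b h.s := by
  unfold Lam
  rw [Submodule.mem_sup]
  constructor
  · rintro ⟨y, hy, z', hz', rfl⟩
    obtain ⟨x, hx, rfl⟩ := Submodule.mem_map.1 hy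
    obtain ⟨c, rfl⟩ := Submodule.mem_span_singleton.1 hz'
    refine ⟨x, hx, c, ?_⟩
    rw [Algebra.smul_def, Algebra.linearMap_apply]
    rfl
  · rintro ⟨x, hx, y, rfl⟩
    refine ⟨algebraMap (𝓞 k) K x, Submodule.mem_map.2 ⟨x, hx, rfl⟩,
      y • ((algebraMap (𝓞 k) K b + h.s) / 2), Submodule.mem_span_singleton.2 ⟨y, rfl⟩, ?_⟩
    rw [Algebra.smul_def]
    rfl

theorem coords (hD : tp D) [Algebra.IsQuadraticExtension k K] (δ : K)
    (hδ : δ ^ 2 = -algebraMap k K (D : k)) : ∃ h : CK D K, h.s = δ := by
  have hnot : ∀ t : k, algebraMap k K t ≠ δ := by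
    intro t ht
    rw [← ht, ← map_pow, ← map_neg] at hδ
    have h1 : t ^ 2 = -(D : k) := (algebraMap k K).injective hδ
    have v : Pl k := Classical.arbitrary _
    have h2 := congrArg (rv v) h1
    rw [map_pow, map_neg] at h2
    have h3 := hD v
    nlinarith [sq_nonneg (rv v t)]
  have hli : LinearIndependent k ![(1 : K), δ] := by
    rw [LinearIndependent.pair_iff]
    intro s t hst
    have ht : t = 0 := by
      by_contra ht
      apply hnot (-s / t)
      rw [map_div₀, map_neg, div_eq_iff (by
        rw [Ne, map_eq_zero]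
        exact ht)]
      rw [Algebra.smul_def, Algebra.smul_def, mul_one] at hst
      linear_combination -hst
    refine ⟨?_, ht⟩
    rw [ht, zero_smul, add_zero, ← amk, map_eq_zero] at hst
    exact hst
  let B := basisOfLinearIndependentOfCardEqFinrank hli (by
    rw [Fintype.card_fin, Algebra.IsQuadraticExtension.finrank_eq_two])
  have hB0 : B 0 = 1 := by
    show basisOfLinearIndependentOfCardEqFinrank hli _ 0 = 1
    rw [coe_basisOfLinearIndependentOfCardEqFinrank]
    rfl
  have hB1 : B 1 = δ := by
    show basisOfLinearIndependentOfCardEqFinrank hli _ 1 = δ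
    rw [coe_basisOfLinearIndependentOfCardEqFinrank]
    rfl
  refine ⟨{ s := δ, re := B.coord 0, im := B.coord 1, sq := ?_, re1 := ?_, im1 := ?_, res := ?_,
            ims := ?_, eq := ?_ }, rfl⟩
  · rw [← sq]
    exact hδ
  · rw [← hB0, Module.Basis.coord_apply, Module.Basis.repr_self, Finsupp.single_eq_same]
  · rw [← hB0, Module.Basis.coord_apply, Module.Basis.repr_self]
    simp
  · rw [← hB1, Module.Basis.coord_apply, Module.Basis.repr_self]
    simp
  · rw [← hB1, Module.Basis.coord_apply, Module.Basis.repr_self, Finsupp.single_eq_same]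
  · intro x
    have h1 := B.sum_repr x
    rw [Fin.sum_univ_two, hB0, hB1, Algebra.smul_def, Algebra.smul_def, mul_one] at h1
    rw [Module.Basis.coord_apply, Module.Basis.coord_apply]
    exact h1.symm

end One

theorem pf_BRK : T_BRK := by
  intro k K _ _ _ _ _ _ D
  refine ⟨fun h => ⟨quad h, ?_, im_zero h, fun f A b z => lat h f A b z⟩, fun hD hQ δ hδ => ?_⟩
  · rw [pow_two]
    exact h.sq
  · exact coords hD δ hδ

end Pool.Agent.H94.NV
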